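import Pool.Agent.K1H12.MV.Real

/-!
# Representations over `𝔽_p` and elements of prime order different from `p`
-/

set_option autoImplicit false

namespace Pool.Agent.K1H70.MR

open Pool.Agent.K1H12.MV Pool.Agent.Q60.MU IntermediateField Module Finset

section alg

variable {k : Type} [Field k] {T : Type} [AddCommGroup T] [Module k T]

theorem sum_zero {X : Module.End k T} {l : ℕ} (h1 : X ^ l = 1) (h2 : ∀ v, X v = v → v = 0) :
    ∑ j ∈ range l, X ^ j = 0 := by
  ext w
  rw [LinearMap.zero_apply]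
  apply h2
  have h3 : (X - 1) * ∑ j ∈ range l, X ^ j = 0 := by
    rw [mul_geom_sum, h1, sub_self]
  have h4 := LinearMap.congr_fun h3 w
  rw [Module.End.mul_apply, LinearMap.sub_apply, Module.End.one_apply, LinearMap.zero_apply,
    sub_eq_zero] at h4
  exact h4

/-- Commuting elements of prime order `l` different from the characteristic cannot act freely. -/
theorem free [Nontrivial T] {l : ℕ} (hl : l.Prime) (hk : (l : k) ≠ 0) {A B : Module.End k T}
    (hA : A ^ l = 1) (hB : B ^ l = 1) (hAB : Commute A B) (h1 : ∀ v, A v = v → v = 0) :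
    ∃ i : ℕ, ∃ v : T, v ≠ 0 ∧ (A ^ i * B) v = v := by
  classical
  by_contra hcon
  push Not at hcon
  have hX : ∀ i, (A ^ i * B) ^ l = 1 := by
    intro i
    rw [(hAB.pow_left i).mul_pow, hB, mul_one, ← pow_mul, mul_comm, pow_mul, hA, one_pow]
  have hS : ∀ i, ∑ j ∈ range l, (A ^ i * B) ^ j = 0 := fun i =>
    sum_zero (hX i) fun v hv => by_contra fun h => hcon i v h hv
  have hAj : ∀ j, 0 < j → j < l → ∑ i ∈ range l, (A ^ j) ^ i = 0 := by
    intro j hj hjl
    refine sum_zero (by rw [← pow_mul, mul_comm, pow_mul, hA, one_pow]) fun v hv => h1 v ?_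
    have h2 : Function.IsPeriodicPt (A : T → T) j v := by
      change (A : T → T)^[j] v = v
      rw [← Module.End.pow_apply]
      exact hv
    have h3 : Function.IsPeriodicPt (A : T → T) l v := by
      change (A : T → T)^[l] v = v
      rw [← Module.End.pow_apply, hA]
      rfl
    have h4 := h2.gcd h3
    have h5 : Nat.gcd j l = 1 := by
      refine Nat.Coprime.symm ?_
      exact (Nat.Prime.coprime_iff_not_dvd hl).2 fun h => absurd (Nat.le_of_dvd hj h) (by omega)
    rw [h5] at h4
    exact h4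
  have hsum : ∑ i ∈ range l, ∑ j ∈ range l, (A ^ i * B) ^ j = 0 :=
    Finset.sum_eq_zero fun i _ => hS i
  rw [Finset.sum_comm] at hsum
  have hj : ∀ j ∈ range l, ∑ i ∈ range l, (A ^ i * B) ^ j
      = if j = 0 then ((l : ℕ) : Module.End k T) else 0 := by
    intro j hj
    split_ifs with h
    · subst h
      simp
    · have h2 : ∀ i, (A ^ i * B) ^ j = (A ^ j) ^ i * B ^ j := by
        intro i
        rw [(hAB.pow_left i).mul_pow, ← pow_mul, ← pow_mul, mul_comm i j]
      simp only [h2]
      rw [← Finset.sum_mul, hAj j (Nat.pos_of_ne_zero h) (Finset.mem_range.1 hj), zero_mul]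
  rw [Finset.sum_congr rfl hj, Finset.sum_ite_eq', if_pos (Finset.mem_range.2 hl.pos)] at hsum
  obtain ⟨v, hv⟩ := exists_ne (0 : T)
  have h6 := LinearMap.congr_fun hsum v
  have h7 : ((l : ℕ) : Module.End k T) v = (l : k) • v := by
    rw [← nsmul_one, LinearMap.smul_apply, Module.End.one_apply, Nat.cast_smul_eq_nsmul]
  rw [h7, LinearMap.zero_apply] at h6
  rcases smul_eq_zero.1 h6 with h8 | h8
  · exact hk h8
  · exact hv h8

end alg

theorem core_iff {k : Type} [Field k] {G : Type} [Group G] {T : Type} [AddCommGroup T] [Module k T]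
    (τ : Representation k G T) (hs : IsSimple τ) {v : T} (hv : v ≠ 0) (g : G) :
    g ∈ (stab τ v).normalCore ↔ ∀ x, τ g x = x := by
  constructor
  · intro hg
    let U : Submodule k T :=
      { carrier := {x | ∀ c ∈ (stab τ v).normalCore, τ c x = x}
        add_mem' := by
          intro a b ha hb c hc
          rw [map_add, ha c hc, hb c hc]
        zero_mem' := fun c _ => map_zero _
        smul_mem' := by
          intro r a ha c hc
          rw [map_smul, ha c hc] }
    have hU : Stable τ U := by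
      intro h x hx c hc
      have h1 : h⁻¹ * c * h ∈ (stab τ v).normalCore := by
        have := (Subgroup.normalCore_normal (stab τ v)).conj_mem c hc h⁻¹
        rwa [inv_inv] at this
      have h2 : c * h = h * (h⁻¹ * c * h) := by group
      rw [← Module.End.mul_apply, ← map_mul, h2, map_mul, Module.End.mul_apply, hx _ h1]
    have hvU : v ∈ U := fun c hc => Subgroup.normalCore_le (stab τ v) hc
    rcases hs.2 U hU with h | h
    · rw [h] at hvU
      exact absurd ((Submodule.mem_bot k).1 hvU) hv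
    · intro x
      have hx : x ∈ U := by
        rw [h]
        exact Submodule.mem_top
      exact hx g hg
  · intro h b
    change τ (b * g * b⁻¹) v = v
    rw [map_mul, map_mul, Module.End.mul_apply, Module.End.mul_apply, h, ← Module.End.mul_apply,
      ← map_mul, mul_inv_cancel, map_one, Module.End.one_apply]

/-- Let `N` be the Galois closure of `E` over `ℚ`; `Gal(Qa/N)` is the largest normal subgroup which is contained in
`Gal(Qa/E)`. The group `Gal(N/E)` contains an element of prime order different from `p`. -/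
def HasSymmetry (p : ℕ) (E : IntermediateField ℚ Qa) : Prop :=
  ∃ σ ∈ E.fixingSubgroup, ∃ l : ℕ, l.Prime ∧ l ≠ p ∧ σ ∉ E.fixingSubgroup.normalCore ∧
    σ ^ l ∈ E.fixingSubgroup.normalCore

/-- Let `N` be the Galois closure of `E` over `ℚ`; `Gal(Qa/N)` is the largest normal subgroup which is contained in
`Gal(Qa/E)`. For no prime `l` different from `p` the group `Gal(N/ℚ)` contains a product of two groups of
order `l`: if `σ`, `τ` in `Gal(N/ℚ)` commute and `σ ^ l = τ ^ l = 1` then `σ = 1` or `τ` is a power of `σ`. -/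
def RankOne (p : ℕ) (E : IntermediateField ℚ Qa) : Prop :=
  ∀ l : ℕ, l.Prime → l ≠ p → ∀ σ τ : Gal(Qa/ℚ), σ ^ l ∈ E.fixingSubgroup.normalCore →
    τ ^ l ∈ E.fixingSubgroup.normalCore → σ * τ * (τ * σ)⁻¹ ∈ E.fixingSubgroup.normalCore →
    σ ∈ E.fixingSubgroup.normalCore ∨ ∃ i : ℕ, σ ^ i * τ ∈ E.fixingSubgroup.normalCore

/-- The fields `E = ℚ(v)` with `HasSymmetry`, or with `RankOne` and of degree prime to `p`. -/
def Few (p : ℕ) [Fact p.Prime] : Set (IntermediateField ℚ Qa) :=
  {E | IsVectorField p E ∧ (HasSymmetry p E ∨ (RankOne p E ∧ ¬ p ∣ finrank ℚ E))}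

theorem selects (p : ℕ) [Fact p.Prime] (T : Type) [AddCommGroup T] [Module (ZMod p) T]
    [Module.Finite (ZMod p) T] (τ : Representation (ZMod p) Gal(Qa/ℚ) T) (hs : IsSimple τ)
    (hτ : FiniteImage τ) : ∃ v : T, v ≠ 0 ∧ vecField τ v ∈ Few p := by
  classical
  obtain ⟨N, hNf, hN⟩ := hτ
  have hp : p.Prime := Fact.out
  have hfix : ∀ v : T, (vecField τ v).fixingSubgroup = stab τ v := fun v => stab_fixing hNf hN v
  have hnt : Nontrivial T := hs.1
  by_cases hcase : ∃ σ : Gal(Qa/ℚ), ∃ l : ℕ, l.Prime ∧ l ≠ p ∧ (∀ x, τ (σ ^ l) x = x) ∧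
      (∃ x, τ σ x ≠ x) ∧ ∃ v : T, v ≠ 0 ∧ τ σ v = v
  · obtain ⟨σ, l, hl, hlp, h1, ⟨x, hx⟩, v, hv, h3⟩ := hcase
    refine ⟨v, hv, ⟨T, inferInstance, inferInstance, inferInstance, τ, v, hs, ⟨N, hNf, hN⟩, hv, rfl⟩,
      Or.inl ⟨σ, ?_, l, hl, hlp, ?_, ?_⟩⟩
    · rw [hfix]
      exact h3
    · rw [hfix, core_iff τ hs hv]
      exact fun h => hx (h x)
    · rw [hfix, core_iff τ hs hv]
      exact h1
  · obtain ⟨v, hv, h1, h2⟩ := selects_prime_to p T τ hs ⟨N, hNf, hN⟩
    refine ⟨v, hv, h1, Or.inr ⟨?_, h2⟩⟩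
    intro l hl hlp σ ρ hσ hρ hσρ
    rw [hfix, core_iff τ hs hv] at hσ hρ hσρ
    rw [hfix, core_iff τ hs hv]
    by_cases h3 : ∀ x, τ σ x = x
    · exact Or.inl h3
    right
    have h4 : ∀ w, τ σ w = w → w = 0 := by
      intro w hw
      by_contra hw0
      push Not at h3
      exact hcase ⟨σ, l, hl, hlp, hσ, h3, w, hw0, hw⟩
    have hA : (τ σ) ^ l = 1 := by
      rw [← map_pow]
      exact LinearMap.ext hσ
    have hB : (τ ρ) ^ l = 1 := by
      rw [← map_pow]
      exact LinearMap.ext hρ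
    have hAB : Commute (τ σ) (τ ρ) := by
      have h5 : τ (σ * ρ * (ρ * σ)⁻¹) = 1 := LinearMap.ext hσρ
      have h6 : τ (σ * ρ) = τ (ρ * σ) := by
        calc τ (σ * ρ) = τ (σ * ρ * (ρ * σ)⁻¹ * (ρ * σ)) := by rw [inv_mul_cancel_right]
          _ = τ (ρ * σ) := by rw [map_mul, h5, one_mul]
      rw [map_mul, map_mul] at h6
      exact h6
    have hk : ((l : ℕ) : ZMod p) ≠ 0 := by
      intro h
      rw [ZMod.natCast_eq_zero_iff] at h
      exact hlp ((Nat.prime_dvd_prime_iff_eq hp hl).1 h).symm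
    obtain ⟨i, w, hw0, hw⟩ := free hl hk hA hB hAB h4
    refine ⟨i, ?_⟩
    rw [core_iff τ hs hv]
    by_contra h7
    push Not at h7
    apply hcase
    refine ⟨σ ^ i * ρ, l, hl, hlp, ?_, h7, w, hw0, ?_⟩
    · intro x
      rw [map_pow, map_mul, map_pow, (hAB.pow_left i).mul_pow, hB, mul_one, ← pow_mul, mul_comm,
        pow_mul, hA, one_pow]
      rfl
    · rw [map_mul, map_pow]
      exact hw

end Pool.Agent.K1H70.MR
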